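import Pool.Agent.Q229.QP4.Defs

/-! # Project QP4 (helper229), job A1: the source problem on elements -/

set_option autoImplicit false

namespace Pool.Agent.Q223.QP4

open Pool.Agent.NPC Pool.Agent.NPC.WC648 Pool.Agent.Q229.QP4

/-! ### the elements of the tests -/

theorem mem_plc {φ : NF} {p : ℕ × ℕ} : p ∈ plc φ ↔ p.1 < φ.length ∧ p.2 < 3 := by
  unfold plc
  obtain ⟨a, b⟩ := p
  rw [List.pair_mem_product, List.mem_range, List.mem_range]

theorem mem_eqT {φ : NF} {t : Tst} : t ∈ eqT φ ↔ ∃ p p' : ℕ × ℕ, (p.1 < φ.length ∧ p.2 < 3) ∧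
    (p'.1 < φ.length ∧ p'.2 < 3) ∧ p ≠ p' ∧ occ φ p.1 p.2 = occ φ p'.1 p'.2 ∧
    t = ((0, 1), (2 + 4 * p.1 + p.2, 2 + 4 * p'.1 + p'.2)) := by
  unfold eqT
  rw [List.mem_map]
  constructor
  · rintro ⟨⟨p, p'⟩, h, rfl⟩
    rw [List.mem_filter, List.pair_mem_product, mem_plc, mem_plc] at h
    simp only [Bool.and_eq_true, decide_eq_true_eq] at h
    exact ⟨p, p', h.1.1, h.1.2, h.2.1, h.2.2, rfl⟩
  · rintro ⟨p, p', h1, h2, h3, h4, rfl⟩
    refine ⟨(p, p'), ?_, rfl⟩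
    rw [List.mem_filter, List.pair_mem_product, mem_plc, mem_plc]
    simp only [Bool.and_eq_true, decide_eq_true_eq]
    exact ⟨⟨h1, h2⟩, h3, h4⟩

theorem mem_elT {φ : NF} {t : Tst} :
    t ∈ elT φ ↔ (∃ i, i < φ.length ∧ t ∈ clT i) ∨ t ∈ eqT φ := by
  unfold elT
  rw [List.mem_append, List.mem_flatMap]
  simp only [List.mem_range]

theorem mem_clT {i : ℕ} {t : Tst} : t ∈ clT i ↔
    t = ((2 + 4 * i + 3, 2 + 4 * i), (0, 2 + 4 * i + 1)) ∨
    t = ((2 + 4 * i + 3, 2 + 4 * i + 1), (0, 2 + 4 * i)) ∨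
    t = ((1, 2 + 4 * i + 3), (0, 2 + 4 * i + 2)) ∨
    t = ((1, 2 + 4 * i + 2), (0, 2 + 4 * i + 3)) := by
  unfold clT
  simp only [List.mem_cons, List.not_mem_nil, or_false]

theorem elem1 (φ : NF) : ∀ t ∈ elT φ, EOk (Ef φ) t := by
  intro t ht
  unfold EOk Ef
  rw [mem_elT] at ht
  rcases ht with ⟨i, hi, ht⟩ | ht
  · rw [mem_clT] at ht
    rcases ht with rfl | rfl | rfl | rfl
    · dsimp only; omega
    · dsimp only; omega
    · dsimp only; omega
    · dsimp only; omega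
  · rw [mem_eqT] at ht
    obtain ⟨⟨a, b⟩, ⟨c, d⟩, h1, h2, h3, -, rfl⟩ := ht
    have h4 : ¬ (a = c ∧ b = d) := fun h => h3 (Prod.ext h.1 h.2)
    dsimp only at h1 h2 ⊢
    omega

/-! ### soundness -/

/-- `v` is between `x` and `u` -/
def bt (x u v : ℕ) : Prop := (x < v ∧ v < u) ∨ (u < v ∧ v < x)

/-- `{x, u}` crosses `{v, w}` -/
def crN (x u v w : ℕ) : Prop := (bt x u v ∧ ¬ bt x u w) ∨ (¬ bt x u v ∧ bt x u w)

instance (x u v : ℕ) : Decidable (bt x u v) := by unfold bt; infer_instance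

instance (x u v w : ℕ) : Decidable (crN x u v w) := by unfold crN; infer_instance

theorem Crs_iff (s : ℕ → ℕ) (t : Tst) :
    Crs s t ↔ crN (s t.1.1) (s t.1.2) (s t.2.1) (s t.2.2) := Iff.rfl

theorem bt_xor {x u v : ℕ} (h1 : x ≠ v) (h2 : u ≠ v) :
    bt x u v ↔ (decide (x < v) ^^ decide (u < v)) = true := by
  unfold bt
  rcases lt_or_gt_of_ne h1 with h | h <;> rcases lt_or_gt_of_ne h2 with h' | h'
  · simp [h, h', not_lt.2 h.le, not_lt.2 h'.le]
  · simp [h, h', not_lt.2 h.le, not_lt.2 h'.le]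
  · simp [h, h', not_lt.2 h.le, not_lt.2 h'.le]
  · simp [h, h', not_lt.2 h.le, not_lt.2 h'.le]

theorem dec_symm {u v : ℕ} (h : u ≠ v) : decide (v < u) = !decide (u < v) := by
  rcases lt_or_gt_of_ne h with h | h
  · simp [h, not_lt.2 h.le]
  · simp [h, not_lt.2 h.le]

theorem bool_par : ∀ a b c d e f : Bool,
    ¬ (((a ^^ d) = true ∧ ¬ (b ^^ e) = true) ∨ (¬ (a ^^ d) = true ∧ (b ^^ e) = true)) →
    ¬ (((a ^^ !f) = true ∧ ¬ (c ^^ !e) = true) ∨ (¬ (a ^^ !f) = true ∧ (c ^^ !e) = true)) →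
    (((c ^^ !d) = true ∧ ¬ (b ^^ f) = true) ∨ (¬ (c ^^ !d) = true ∧ (b ^^ f) = true)) := by
  decide

theorem lin1 (x u v w : ℕ) (h1 : x ≠ u) (h2 : x ≠ v) (h3 : x ≠ w) (h4 : u ≠ v) (h5 : u ≠ w)
    (h6 : v ≠ w) (c1 : ¬ crN x u v w) (c2 : ¬ crN x w v u) : crN x v u w := by
  unfold crN at *
  rw [bt_xor h2 h4, bt_xor h3 h5] at c1
  rw [bt_xor h2 h6.symm, bt_xor h1 h5.symm, dec_symm h6, dec_symm h5] at c2
  rw [bt_xor h1 h4.symm, bt_xor h3 h6, dec_symm h4]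
  exact bool_par _ _ _ _ _ _ c1 c2

theorem lin2a (p0 p1 a b y : ℕ) (h2 : y ≠ p0) (h3 : y ≠ p1)
    (ha : bt p0 p1 a) (hb : bt p0 p1 b) (hy : ¬ bt p0 p1 y) : bt y p0 a ↔ bt y p0 b := by
  unfold bt at *
  rcases lt_or_gt_of_ne h2 with h | h <;> rcases lt_or_gt_of_ne h3 with h' | h' <;>
  rcases ha with ha | ha <;> rcases hb with hb | hb <;> constructor <;> intro h0 <;> omega

theorem bt_sub {p0 p1 a y : ℕ} (hy : bt p0 p1 y) (h : bt y p0 a) : bt p0 p1 a := by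
  unfold bt at *
  rcases hy with hy | hy <;> rcases h with h | h <;> omega

theorem bt_symm {x u v : ℕ} : bt x u v ↔ bt u x v := by
  unfold bt
  exact or_comm.trans (or_congr (Iff.rfl) (Iff.rfl))

theorem lin2 (p0 p1 a b c y : ℕ) (h2 : y ≠ p0) (h3 : y ≠ p1)
    (c1 : crN y p0 a b) (c2 : crN p1 p0 y c) (e1 : bt p0 p1 a ↔ bt p0 p1 b)
    (e2 : bt p0 p1 b ↔ bt p0 p1 c) : False := by
  have c1' : ¬ (bt y p0 a ↔ bt y p0 b) := by
    unfold crN at c1
    tauto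
  have c2' : ¬ (bt p0 p1 y ↔ bt p0 p1 c) := by
    unfold crN at c2
    rw [bt_symm (x := p1), bt_symm (x := p1)] at c2
    tauto
  apply c1'
  by_cases hb : bt p0 p1 b
  · have hy : ¬ bt p0 p1 y := fun h => c2' ⟨fun _ => e2.1 hb, fun _ => h⟩
    exact lin2a p0 p1 a b y h2 h3 (e1.2 hb) hb hy
  · have hc : ¬ bt p0 p1 c := fun h => hb (e2.2 h)
    have hy : bt p0 p1 y := by
      by_contra h
      exact c2' ⟨fun h' => absurd h' h, fun h' => absurd h' hc⟩
    exact ⟨fun h => absurd (e1.1 (bt_sub hy h)) hb, fun h => absurd (bt_sub hy h) hb⟩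

theorem prop_iff {A B : Prop} (h : ¬ ((A ∧ ¬ B) ∨ (¬ A ∧ B))) : A ↔ B := by
  constructor
  · intro ha
    by_contra hb
    exact h (Or.inl ⟨ha, hb⟩)
  · intro hb
    by_contra ha
    exact h (Or.inr ⟨ha, hb⟩)

theorem elem2 (φ : NF) (s : ℕ → ℕ) (hs : Inj (Ef φ) s) (h : ∀ t ∈ elT φ, ¬ Crs s t) : NAE φ := by
  classical
  have hside : ∀ p p' : ℕ × ℕ, (p.1 < φ.length ∧ p.2 < 3) → (p'.1 < φ.length ∧ p'.2 < 3) →
      occ φ p.1 p.2 = occ φ p'.1 p'.2 →
      (bt (s 0) (s 1) (s (2 + 4 * p.1 + p.2)) ↔ bt (s 0) (s 1) (s (2 + 4 * p'.1 + p'.2))) := by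
    intro p p' hp hp' ho
    by_cases hpp : p = p'
    · rw [hpp]
    · have h1 := h _ (mem_elT.2 (Or.inr (mem_eqT.2 ⟨p, p', hp, hp', hpp, ho, rfl⟩)))
      rw [Crs_iff] at h1
      exact prop_iff h1
  obtain ⟨τ, hτ⟩ : ∃ τ : NV → Bool, τ = fun v => decide (∃ p : ℕ × ℕ, (p.1 < φ.length ∧ p.2 < 3) ∧
    occ φ p.1 p.2 = v ∧ bt (s 0) (s 1) (s (2 + 4 * p.1 + p.2))) := ⟨_, rfl⟩
  have hτ' : ∀ i r, i < φ.length → r < 3 → (τ (occ φ i r) = true ↔
      bt (s 0) (s 1) (s (2 + 4 * i + r))) := by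
    intro i r hi hr
    rw [hτ]
    simp only [decide_eq_true_eq]
    constructor
    · rintro ⟨p, hp, ho, hb⟩
      exact (hside p (i, r) hp ⟨hi, hr⟩ ho).1 hb
    · intro hb
      exact ⟨(i, r), ⟨hi, hr⟩, rfl, hb⟩
  refine ⟨τ, ?_⟩
  intro t ht hc
  obtain ⟨i, hi, hit⟩ := List.getElem_of_mem ht
  have hget : φ.getD i ((0, 0, false), (0, 0, false), (0, 0, false)) = t := by
    rw [List.getD_eq_getElem _ _ hi, hit]
  have o0 : occ φ i 0 = t.1 := by unfold occ; rw [hget]; simp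
  have o1 : occ φ i 1 = t.2.1 := by unfold occ; rw [hget]; simp
  have o2 : occ φ i 2 = t.2.2 := by unfold occ; rw [hget]; simp
  have b0 := hτ' i 0 hi (by norm_num)
  have b1 := hτ' i 1 hi (by norm_num)
  have b2 := hτ' i 2 hi (by norm_num)
  rw [o0] at b0
  rw [o1] at b1
  rw [o2] at b2
  have e1 : bt (s 0) (s 1) (s (2 + 4 * i)) ↔ bt (s 0) (s 1) (s (2 + 4 * i + 1)) := by
    rw [← b1, ← hc.1]
    exact b0.symm
  have e2 : bt (s 0) (s 1) (s (2 + 4 * i + 1)) ↔ bt (s 0) (s 1) (s (2 + 4 * i + 2)) := by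
    rw [← b1, ← b2, ← hc.2]
  have t1 := h _ (mem_elT.2 (Or.inl ⟨i, hi, mem_clT.2 (Or.inl rfl)⟩))
  have t2 := h _ (mem_elT.2 (Or.inl ⟨i, hi, mem_clT.2 (Or.inr (Or.inl rfl))⟩))
  have t3 := h _ (mem_elT.2 (Or.inl ⟨i, hi, mem_clT.2 (Or.inr (Or.inr (Or.inl rfl)))⟩))
  have t4 := h _ (mem_elT.2 (Or.inl ⟨i, hi, mem_clT.2 (Or.inr (Or.inr (Or.inr rfl)))⟩))
  rw [Crs_iff] at t1 t2 t3 t4
  dsimp only at t1 t2 t3 t4
  have hne : ∀ e e' : ℕ, e < Ef φ → e' < Ef φ → e ≠ e' → s e ≠ s e' :=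
    fun e e' he he' hee h' => hee (hs e he e' he' h')
  have hE : 2 + 4 * i + 3 < Ef φ := by unfold Ef; omega
  have n (e e' : ℕ) (he : e < 2 + 4 * i + 4) (he' : e' < 2 + 4 * i + 4) (hee : e ≠ e') :
      s e ≠ s e' := hne e e' (by omega) (by omega) hee
  have k1 := lin1 _ _ _ _ (n _ _ (by omega) (by omega) (by omega))
    (n _ _ (by omega) (by omega) (by omega)) (n _ _ (by omega) (by omega) (by omega))
    (n _ _ (by omega) (by omega) (by omega)) (n _ _ (by omega) (by omega) (by omega))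
    (n _ _ (by omega) (by omega) (by omega)) t1 t2
  have k2 := lin1 _ _ _ _ (n _ _ (by omega) (by omega) (by omega))
    (n _ _ (by omega) (by omega) (by omega)) (n _ _ (by omega) (by omega) (by omega))
    (n _ _ (by omega) (by omega) (by omega)) (n _ _ (by omega) (by omega) (by omega))
    (n _ _ (by omega) (by omega) (by omega)) t3 t4
  exact lin2 _ _ _ _ _ _ (n _ _ (by omega) (by omega) (by omega))
    (n _ _ (by omega) (by omega) (by omega)) k1 k2 e1 e2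

/-! ### completeness -/

/-- zone of the element with the residue `r` for the values `A`, `B`, `C` of the places -/
def znB (A B C : Bool) (r : ℕ) : ℕ :=
  if r = 0 then (if A then 8 else 1) else if r = 1 then (if B then 10 else 3)
  else if r = 2 then (if C then 11 else 4)
  else if A = B then (if A then 9 else 2) else (if C then 5 else 7)

/-- the zone of an element -/
def zn (φ : NF) (τ : NV → Bool) (e : ℕ) : ℕ :=
  if e = 0 then 0 else if e = 1 then 6 else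
    znB (τ (occ φ ((e - 2) / 4) 0)) (τ (occ φ ((e - 2) / 4) 1)) (τ (occ φ ((e - 2) / 4) 2))
      ((e - 2) % 4)

theorem zn_el (φ : NF) (τ : NV → Bool) (i r : ℕ) (hr : r < 4) : zn φ τ (2 + 4 * i + r) =
    znB (τ (occ φ i 0)) (τ (occ φ i 1)) (τ (occ φ i 2)) r := by
  unfold zn
  rw [if_neg (by omega), if_neg (by omega)]
  have h1 : (2 + 4 * i + r - 2) / 4 = i := by omega
  have h2 : (2 + 4 * i + r - 2) % 4 = r := by omega
  rw [h1, h2]

theorem zn_side (A B C : Bool) (r : ℕ) (hr : r < 3) (V : Bool)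
    (hV : V = if r = 0 then A else if r = 1 then B else C) :
    (V = true → 6 < znB A B C r) ∧ (V = false → 0 < znB A B C r ∧ znB A B C r < 6) := by
  have h : r = 0 ∨ r = 1 ∨ r = 2 := by omega
  rcases h with rfl | rfl | rfl <;> revert A B C V <;> decide

theorem znB_ok : ∀ A B C : Bool, ¬ (A = B ∧ B = C) →
    ¬ crN (znB A B C 3) (znB A B C 0) 0 (znB A B C 1) ∧
    ¬ crN (znB A B C 3) (znB A B C 1) 0 (znB A B C 0) ∧
    ¬ crN 6 (znB A B C 3) 0 (znB A B C 2) ∧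
    ¬ crN 6 (znB A B C 2) 0 (znB A B C 3) := by
  decide

theorem znB_ne : ∀ A B C : Bool,
    (znB A B C 0 ≠ 0 ∧ znB A B C 1 ≠ 0 ∧ znB A B C 2 ≠ 0 ∧ znB A B C 3 ≠ 0) ∧
    (znB A B C 0 ≠ 6 ∧ znB A B C 1 ≠ 6 ∧ znB A B C 2 ≠ 6 ∧ znB A B C 3 ≠ 6) ∧
    (znB A B C 0 ≠ znB A B C 1 ∧ znB A B C 0 ≠ znB A B C 2 ∧ znB A B C 0 ≠ znB A B C 3 ∧
      znB A B C 1 ≠ znB A B C 2 ∧ znB A B C 1 ≠ znB A B C 3 ∧ znB A B C 2 ≠ znB A B C 3) := by
  decide

theorem lt_zone {z s : ℕ → ℕ} {E : ℕ} (h : ∀ e e', e < E → e' < E → z e < z e' → s e < s e')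
    {x v : ℕ} (hx : x < E) (hv : v < E) (h1 : z x ≠ z v) : s x < s v ↔ z x < z v := by
  constructor
  · intro h'
    rcases lt_or_gt_of_ne h1 with h2 | h2
    · exact h2
    · exact absurd (h v x hv hx h2) (not_lt.2 h'.le)
  · exact h x v hx hv

/-- a function which refines the zones -/
theorem bt_zone {z s : ℕ → ℕ} {E : ℕ} (h : ∀ e e', e < E → e' < E → z e < z e' → s e < s e')
    {x u v : ℕ} (hx : x < E) (hu : u < E) (hv : v < E) (h1 : z x ≠ z v) (h2 : z u ≠ z v) :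
    bt (s x) (s u) (s v) ↔ bt (z x) (z u) (z v) := by
  unfold bt
  rw [lt_zone h hx hv h1, lt_zone h hv hu h2.symm, lt_zone h hu hv h2, lt_zone h hv hx h1.symm]

theorem cr_zone {z s : ℕ → ℕ} {E : ℕ} (h : ∀ e e', e < E → e' < E → z e < z e' → s e < s e')
    {x u v w : ℕ} (hx : x < E) (hu : u < E) (hv : v < E) (hw : w < E) (h1 : z x ≠ z v)
    (h2 : z u ≠ z v) (h3 : z x ≠ z w) (h4 : z u ≠ z w) :
    crN (s x) (s u) (s v) (s w) ↔ crN (z x) (z u) (z v) (z w) := by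
  unfold crN
  rw [bt_zone h hx hu hv h1 h2, bt_zone h hx hu hw h3 h4]

theorem elem3 (φ : NF) (h : NAE φ) : ∃ s : ℕ → ℕ, Inj (Ef φ) s ∧ ∀ t ∈ elT φ, ¬ Crs s t := by
  obtain ⟨τ, hτ⟩ := h
  have hE2 : 2 ≤ Ef φ := by unfold Ef; omega
  obtain ⟨z, hz⟩ : ∃ z, z = zn φ τ := ⟨_, rfl⟩
  have hlt : ∀ e e', e < Ef φ → e' < Ef φ → z e < z e' →
      z e * Ef φ + e < z e' * Ef φ + e' := by
    intro e e' he _ hzz
    have : (z e + 1) * Ef φ ≤ z e' * Ef φ := Nat.mul_le_mul_right _ hzz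
    nlinarith
  refine ⟨fun e => z e * Ef φ + e, ?_, ?_⟩
  · intro c hc c' hc' hcc
    have h1 : (z c * Ef φ + c) % Ef φ = c := by
      rw [Nat.mul_comm, Nat.mul_add_mod, Nat.mod_eq_of_lt hc]
    have h2 : (z c' * Ef φ + c') % Ef φ = c' := by
      rw [Nat.mul_comm, Nat.mul_add_mod, Nat.mod_eq_of_lt hc']
    rw [← h1, ← h2]
    exact congrArg (· % Ef φ) hcc
  · intro t ht
    rw [Crs_iff]
    have z0 : z 0 = 0 := by rw [hz]; rfl
    have z1 : z 1 = 6 := by rw [hz]; rfl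
    rw [mem_elT] at ht
    rcases ht with ⟨i, hi, ht⟩ | ht
    · have hE : 2 + 4 * i + 3 < Ef φ := by unfold Ef; omega
      have w0 : z (2 + 4 * i) = znB (τ (occ φ i 0)) (τ (occ φ i 1)) (τ (occ φ i 2)) 0 := by
        rw [hz]; exact zn_el φ τ i 0 (by norm_num)
      have w1 : z (2 + 4 * i + 1) = znB (τ (occ φ i 0)) (τ (occ φ i 1)) (τ (occ φ i 2)) 1 := by
        rw [hz]; exact zn_el φ τ i 1 (by norm_num)
      have w2 : z (2 + 4 * i + 2) = znB (τ (occ φ i 0)) (τ (occ φ i 1)) (τ (occ φ i 2)) 2 := by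
        rw [hz]; exact zn_el φ τ i 2 (by norm_num)
      have w3 : z (2 + 4 * i + 3) = znB (τ (occ φ i 0)) (τ (occ φ i 1)) (τ (occ φ i 2)) 3 := by
        rw [hz]; exact zn_el φ τ i 3 (by norm_num)
      have hmem : φ.getD i ((0, 0, false), (0, 0, false), (0, 0, false)) ∈ φ := by
        rw [List.getD_eq_getElem _ _ hi]
        exact List.getElem_mem hi
      have hn := hτ _ hmem
      have hn' : ¬ (τ (occ φ i 0) = τ (occ φ i 1) ∧ τ (occ φ i 1) = τ (occ φ i 2)) := by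
        unfold occ
        simpa using hn
      obtain ⟨k1, k2, k3, k4⟩ := znB_ok _ _ _ hn'
      obtain ⟨⟨a0, a1, a2, a3⟩, ⟨b0, b1, b2, b3⟩, c1, c2, c3, c4, c5, c6⟩ :=
        znB_ne (τ (occ φ i 0)) (τ (occ φ i 1)) (τ (occ φ i 2))
      rw [mem_clT] at ht
      rcases ht with rfl | rfl | rfl | rfl
      · dsimp only
        rw [cr_zone hlt (by omega) (by omega) (by omega) (by omega)
          (by rw [w3, z0]; exact a3) (by rw [w0, z0]; exact a0) (by rw [w3, w1]; exact c5.symm)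
          (by rw [w0, w1]; exact c1), w3, w0, z0, w1]
        exact k1
      · dsimp only
        rw [cr_zone hlt (by omega) (by omega) (by omega) (by omega)
          (by rw [w3, z0]; exact a3) (by rw [w1, z0]; exact a1) (by rw [w3, w0]; exact c3.symm)
          (by rw [w1, w0]; exact c1.symm), w3, w1, z0, w0]
        exact k2
      · dsimp only
        rw [cr_zone hlt (by omega) (by omega) (by omega) (by omega)
          (by rw [z1, z0]; norm_num) (by rw [w3, z0]; exact a3) (by rw [z1, w2]; exact b2.symm)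
          (by rw [w3, w2]; exact c6.symm), z1, w3, z0, w2]
        exact k3
      · dsimp only
        rw [cr_zone hlt (by omega) (by omega) (by omega) (by omega)
          (by rw [z1, z0]; norm_num) (by rw [w2, z0]; exact a2) (by rw [z1, w3]; exact b3.symm)
          (by rw [w2, w3]; exact c6), z1, w2, z0, w3]
        exact k4
    · rw [mem_eqT] at ht
      obtain ⟨⟨a, b⟩, ⟨c, d⟩, h1, h2, -, ho, rfl⟩ := ht
      dsimp only at h1 h2 ho ⊢
      have w1 : z (2 + 4 * a + b) =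
          znB (τ (occ φ a 0)) (τ (occ φ a 1)) (τ (occ φ a 2)) b := by rw [hz]; exact zn_el φ τ a b (by omega)
      have w2 : z (2 + 4 * c + d) =
          znB (τ (occ φ c 0)) (τ (occ φ c 1)) (τ (occ φ c 2)) d := by rw [hz]; exact zn_el φ τ c d (by omega)
      have v : ∀ i r, r < 3 → τ (occ φ i r) = if r = 0 then τ (occ φ i 0) else if r = 1 then
          τ (occ φ i 1) else τ (occ φ i 2) := by
        intro i r hr
        have h : r = 0 ∨ r = 1 ∨ r = 2 := by omega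
        rcases h with rfl | rfl | rfl <;> rfl
      obtain ⟨s1, s2⟩ := zn_side _ _ _ b h1.2 _ (v a b h1.2)
      obtain ⟨s3, s4⟩ := zn_side _ _ _ d h2.2 _ (v c d h2.2)
      rw [← ho] at s3 s4
      rw [← w1] at s1 s2
      rw [← w2] at s3 s4
      have hE1 : 2 + 4 * a + b < Ef φ := by unfold Ef; omega
      have hE2' : 2 + 4 * c + d < Ef φ := by unfold Ef; omega
      cases hV : τ (occ φ a b) with
      | true =>
        have t1 := s1 hV
        have t3 := s3 hV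
        rw [cr_zone hlt (by omega) (by omega) hE1 hE2' (by rw [z0]; omega) (by rw [z1]; omega)
          (by rw [z0]; omega) (by rw [z1]; omega), z0, z1]
        unfold crN bt
        omega
      | false =>
        have t1 := s2 hV
        have t3 := s4 hV
        rw [cr_zone hlt (by omega) (by omega) hE1 hE2' (by rw [z0]; omega) (by rw [z1]; omega)
          (by rw [z0]; omega) (by rw [z1]; omega), z0, z1]
        unfold crN bt
        omega

/-! ### polynomial time -/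

theorem uPoly_Ef : UPoly Ef :=
  UPoly.add (UPoly.const 2) (UPoly.mul (UPoly.const 4) (UPoly.length NPC.Poly.id))

theorem poly_clT : NPC.Poly clT := by
  unfold clT
  fun_prop

@[fun_prop]
theorem poly_occ {α : Type} [TEnc α] {φ : α → NF} {i r : α → ℕ} (hφ : NPC.Poly φ)
    (hi : NPC.Poly i) (hr : NPC.Poly r) : NPC.Poly (fun a => occ (φ a) (i a) (r a)) := by
  unfold occ
  fun_prop

theorem poly_prod' {α β γ : Type} [TEnc α] [TEnc β] [TEnc γ] {l : α → List β} {l' : α → List γ}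
    (hl : NPC.Poly l) (hl' : NPC.Poly l') : NPC.Poly (fun a => (l a).product (l' a)) :=
  Pool.Agent.H619R2.QP.poly_prod hl hl'

theorem poly_plc : NPC.Poly plc :=
  poly_prod' (UPoly.range (UPoly.length NPC.Poly.id)) (NPC.Poly.const _)

theorem poly_eqT : NPC.Poly eqT := by
  unfold eqT
  refine NPC.Poly.map (F := fun (_ : NF) (p : (ℕ × ℕ) × (ℕ × ℕ)) =>
    (((0, 1), (2 + 4 * p.1.1 + p.1.2, 2 + 4 * p.2.1 + p.2.2)) : Tst)) ?_ (by fun_prop)
  refine NPC.Poly.filter (p := fun (φ : NF) (p : (ℕ × ℕ) × (ℕ × ℕ)) =>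
    decide (p.1 ≠ p.2) && decide (occ φ p.1.1 p.1.2 = occ φ p.2.1 p.2.2))
    (poly_prod' poly_plc poly_plc) ?_
  fun_prop

theorem poly_elT : NPC.Poly elT := by
  unfold elT
  refine NPC.Poly.append ?_ poly_eqT
  exact NPC.Poly.flatMap (F := fun (_ : NF) i => clT i)
    (UPoly.range (UPoly.length NPC.Poly.id)) (poly_clT.comp (NPC.Poly.snd NPC.Poly.id))

theorem elem : ElemStm :=
  ⟨elem1, elem2, elem3, poly_elT, uPoly_Ef⟩

end Pool.Agent.Q223.QP4
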