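import Pool.Agent.Q229.QP4.Defs

/-! # Project QP4 (helper229), job D1: the graph as a pair of lists -/

set_option autoImplicit false

namespace Pool.Agent.Q223.QP4

open Pool.Agent.NPC Pool.Agent.NPC.WC648 Pool.Agent.Q229.QP4
open Pool.Agent.H619R2.QP (NT NoTwist Cr cr Cr_symm Cr_irrefl Cr_swap)

section

variable {q : ℕ} {φ : NF}

theorem gvB_iff {v : V3} : gvB q φ v = true ↔
    GV q (srcN q φ) (Mq q φ) (Lf q (Mq q φ)) (Tf q (Mq q φ)) v := by
  unfold gvB GV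
  simp only [Bool.or_eq_true, Bool.and_eq_true, decide_eq_true_eq]

theorem tEB_iff {ts : List Tst} {j a b : ℕ} : tEB ts j a b = true ↔ tE ts j a b := by
  unfold tEB tE
  simp only [Bool.or_eq_true, Bool.and_eq_true, decide_eq_true_eq]

theorem gaB_iff {u v : V3} : gaB q φ u v = true ↔
    gadj q (Mq q φ) (Lf q (Mq q φ)) (tE (srcT q φ)) u v := by
  unfold gaB gadj loc
  simp only [Bool.or_eq_true, Bool.and_eq_true, decide_eq_true_eq, tEB_iff]

/-- from names to triples -/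
def dc (q : ℕ) (φ : NF) (n : ℕ) : V3 :=
  (n / Bf q φ / (2 * Mq q φ + 3), n / Bf q φ % (2 * Mq q φ + 3), n % Bf q φ)

theorem gr_fst : (gr q φ).1 = (VL q φ).map (cd q φ) := rfl

theorem gr_snd : (gr q φ).2 = (EL q φ).map (fun p => (cd q φ p.1, cd q φ p.2)) := rfl

theorem bounds {v : V3} (h : GV q (srcN q φ) (Mq q φ) (Lf q (Mq q φ)) (Tf q (Mq q φ)) v) :
    v.1 < Tf q (Mq q φ) + 1 ∧ v.2.1 < 2 * Mq q φ + 3 ∧ v.2.2 < Bf q φ := by
  unfold GV at h
  unfold Bf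
  omega

theorem mem_VL {v : V3} : v ∈ VL q φ ↔
    GV q (srcN q φ) (Mq q φ) (Lf q (Mq q φ)) (Tf q (Mq q φ)) v := by
  unfold VL
  rw [List.mem_filter, gvB_iff]
  constructor
  · exact fun h => h.2
  · intro h
    refine ⟨?_, h⟩
    obtain ⟨h1, h2, h3⟩ := bounds h
    unfold box
    obtain ⟨a, b, c⟩ := v
    rw [List.pair_mem_product, List.pair_mem_product, List.mem_range, List.mem_range,
      List.mem_range]
    exact ⟨h1, h2, h3⟩

theorem mem_EL {p : V3 × V3} : p ∈ EL q φ ↔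
    OE q (srcN q φ) (Mq q φ) (Lf q (Mq q φ)) (Tf q (Mq q φ)) (tE (srcT q φ)) p := by
  unfold EL OE
  obtain ⟨u, v⟩ := p
  rw [List.mem_filter, List.pair_mem_product, mem_VL, mem_VL, gaB_iff]
  tauto

theorem dc_cd {v : V3} (hv : GV q (srcN q φ) (Mq q φ) (Lf q (Mq q φ)) (Tf q (Mq q φ)) v) :
    dc q φ (cd q φ v) = v := by
  obtain ⟨h0, hb, hc⟩ := bounds hv
  obtain ⟨a, b, c⟩ := v
  simp only at h0 hb hc
  have h1 : ((a * (2 * Mq q φ + 3) + b) * Bf q φ + c) / Bf q φ =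
      a * (2 * Mq q φ + 3) + b := by
    rw [Nat.mul_comm _ (Bf q φ), Nat.mul_add_div (by omega), Nat.div_eq_of_lt hc,
      Nat.add_zero]
  have h2 : ((a * (2 * Mq q φ + 3) + b) * Bf q φ + c) % Bf q φ = c := by
    rw [Nat.mul_comm _ (Bf q φ), Nat.mul_add_mod, Nat.mod_eq_of_lt hc]
  have h3 : (a * (2 * Mq q φ + 3) + b) / (2 * Mq q φ + 3) = a := by
    rw [Nat.mul_comm a, Nat.mul_add_div (by omega), Nat.div_eq_of_lt hb, Nat.add_zero]
  have h4 : (a * (2 * Mq q φ + 3) + b) % (2 * Mq q φ + 3) = b := by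
    rw [Nat.mul_comm a, Nat.mul_add_mod, Nat.mod_eq_of_lt hb]
  unfold dc cd
  dsimp only
  rw [h1, h2, h3, h4]

theorem cd_inj {u v : V3} (hu : GV q (srcN q φ) (Mq q φ) (Lf q (Mq q φ)) (Tf q (Mq q φ)) u)
    (hv : GV q (srcN q φ) (Mq q φ) (Lf q (Mq q φ)) (Tf q (Mq q φ)) v)
    (h : cd q φ u = cd q φ v) : u = v := by
  rw [← dc_cd hu, ← dc_cd hv, h]

/-- the lexicographic order -/
def LtG (u v : V3) : Prop :=
  u.1 < v.1 ∨ (u.1 = v.1 ∧ (u.2.1 < v.2.1 ∨ (u.2.1 = v.2.1 ∧ u.2.2 < v.2.2)))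

theorem LtG.irrefl {u : V3} (h : LtG u u) : False := by
  unfold LtG at h
  omega

theorem LtG.asymm {u v : V3} (h : LtG u v) (h' : LtG v u) : False := by
  unfold LtG at h h'
  omega

theorem gadj_LtG {M L : ℕ} {ts : List Tst} {u v : V3} (h : gadj q M L (tE ts) u v) : LtG u v := by
  unfold gadj loc at h
  unfold LtG
  rcases h with h | ⟨h1, h2, h | h | h | h | h | ⟨h3, h4, h5⟩⟩
  · omega
  · omega
  · omega
  · omega
  · omega
  · omega
  · have := h5.2.1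
    omega

theorem gr_isGraph : Pool.Agent.NPC.H634R2.IsGraph (gr q φ).1 (gr q φ).2 := by
  have hlt : ∀ p ∈ EL q φ, LtG p.1 p.2 := fun p hp => gadj_LtG (mem_EL.1 hp).2.2
  have hnd : (VL q φ).Nodup := by
    unfold VL box
    exact (List.Nodup.product List.nodup_range
      (List.Nodup.product List.nodup_range List.nodup_range)).filter _
  unfold Pool.Agent.NPC.H634R2.IsGraph
  rw [gr_fst, gr_snd]
  refine ⟨?_, ?_, ?_⟩
  · refine List.Nodup.map_on (fun x hx y hy hxy => cd_inj (mem_VL.1 hx) (mem_VL.1 hy) hxy) hnd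
  · intro e he
    rw [List.mem_map] at he
    obtain ⟨p, hp, rfl⟩ := he
    have hp' := mem_EL.1 hp
    refine ⟨List.mem_map_of_mem (mem_VL.2 hp'.1), List.mem_map_of_mem (mem_VL.2 hp'.2.1), ?_⟩
    intro heq
    have := cd_inj hp'.1 hp'.2.1 heq
    have h1 := hlt p hp
    rw [this] at h1
    exact h1.irrefl
  · rw [List.map_map]
    refine List.Nodup.map_on (fun x hx y hy hxy => ?_) ((hnd.product hnd).filter _)
    have hx' := mem_EL.1 hx
    have hy' := mem_EL.1 hy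
    have h1 := hlt x hx
    have h2 := hlt y hy
    simp only [Function.comp_apply, Sym2.eq_iff] at hxy
    rcases hxy with ⟨e1, e2⟩ | ⟨e1, e2⟩
    · exact Prod.ext (cd_inj hx'.1 hy'.1 e1) (cd_inj hx'.2.1 hy'.2.1 e2)
    · have e3 := cd_inj hx'.1 hy'.2.1 e1
      have e4 := cd_inj hx'.2.1 hy'.1 e2
      rw [e3, e4] at h1
      exact (h1.asymm h2).elim

/-- from the lists to the triples -/
theorem nt_of_noTwist {k : ℕ} {pos : ℕ → ℕ} (hnt : NoTwist k (gr q φ).2 pos) :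
    NT k (fun v : V3 => pos (cd q φ v))
      (GA q (srcN q φ) (Mq q φ) (Lf q (Mq q φ)) (Tf q (Mq q φ)) (tE (srcT q φ))) := by
  classical
  intro l hl hE hp
  refine hnt ?_
  set g : V3 × V3 → ℕ × ℕ := fun e =>
    if gaB q φ e.1 e.2 = true then (cd q φ e.1, cd q φ e.2) else (cd q φ e.2, cd q φ e.1)
    with hg
  have hgE : ∀ e ∈ l, g e ∈ (gr q φ).2 := by
    intro e he
    obtain ⟨h1, h2, h3⟩ := hE e he
    rw [gr_snd, List.mem_map, hg]
    dsimp only
    split_ifs with h4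
    · exact ⟨(e.1, e.2), mem_EL.2 ⟨h1, h2, gaB_iff.1 h4⟩, rfl⟩
    · refine ⟨(e.2, e.1), mem_EL.2 ⟨h2, h1, ?_⟩, rfl⟩
      rcases h3 with h3 | h3
      · exact absurd (gaB_iff.2 h3) h4
      · exact h3
  have hgc : (l.map g).Pairwise (Cr pos) := by
    rw [List.pairwise_map]
    refine hp.imp ?_
    intro e f hef
    have hef' : Cr pos (cd q φ e.1, cd q φ e.2) (cd q φ f.1, cd q φ f.2) := hef
    have h1 := Cr_swap hef'
    rw [hg]
    dsimp only
    split_ifs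
    · exact hef'
    · exact h1.2.1
    · exact h1.1
    · exact h1.2.2
  have hnd : (l.map g).Nodup := by
    refine hgc.imp ?_
    rintro e f hef rfl
    exact Cr_irrefl hef
  have hsym : Std.Symm (Cr pos) := ⟨fun _ _ h => Cr_symm h⟩
  refine ⟨(l.map g).toFinset, ?_, ?_, ?_⟩
  · rw [List.toFinset_card_of_nodup hnd, List.length_map, hl]
  · intro e he
    rw [List.mem_toFinset, List.mem_map] at he
    obtain ⟨f, hf, rfl⟩ := he
    exact hgE f hf
  · intro e he f hf hne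
    exact hgc.forall (List.mem_toFinset.1 he) (List.mem_toFinset.1 hf) hne

theorem noTwist_of_nt {k : ℕ} {pos : V3 → ℕ} (hnt : NT k pos
    (GA q (srcN q φ) (Mq q φ) (Lf q (Mq q φ)) (Tf q (Mq q φ)) (tE (srcT q φ)))) :
    NoTwist k (gr q φ).2 (fun n => pos (dc q φ n)) := by
  classical
  rintro ⟨S, hS, hSE, hcr⟩
  refine hnt (S.toList.map (fun e => (dc q φ e.1, dc q φ e.2))) ?_ ?_ ?_
  · rw [List.length_map, Finset.length_toList, hS]
  · intro e he
    rw [List.mem_map] at he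
    obtain ⟨f, hf, rfl⟩ := he
    have hf' := hSE f (Finset.mem_toList.1 hf)
    rw [gr_snd, List.mem_map] at hf'
    obtain ⟨p, hp, rfl⟩ := hf'
    have hp' := mem_EL.1 hp
    dsimp only
    rw [dc_cd hp'.1, dc_cd hp'.2.1]
    exact ⟨hp'.1, hp'.2.1, Or.inl hp'.2.2⟩
  · rw [List.pairwise_map]
    have := Finset.nodup_toList S
    refine List.Pairwise.imp_of_mem ?_ this
    intro e f he hf hne
    exact hcr e (Finset.mem_toList.1 he) f (Finset.mem_toList.1 hf) hne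

end

theorem two_le_srcN (q : ℕ) (φ : NF) : 2 ≤ srcN q φ := by
  unfold srcN Nf cpf
  have h : 2 ≤ Ef φ := by unfold Ef; omega
  nlinarith [Nat.zero_le q, Nat.mul_le_mul h h]

theorem graph : GraphStm := by
  intro hS hC hE hY q φ
  obtain ⟨e1, e2, e3, -, -⟩ := hE
  obtain ⟨y1, y2, y3⟩ := hY q (Ef φ) (elT φ) (e1 φ)
  refine ⟨gr_isGraph, ?_, ?_⟩
  · intro hφ
    obtain ⟨s, hs, hsc⟩ := e3 φ hφ
    obtain ⟨σ, hσ, hσ0, hσc⟩ := y3 s hs hsc
    obtain ⟨pos, hinj, hnt⟩ := hC q (srcN q φ) (Tf q (Mq q φ)) (srcT q φ) σ y1 hσ hσ0 hσc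
    refine ⟨fun n => pos (dc q φ n), ?_, noTwist_of_nt hnt⟩
    intro u hu v hv huv
    rw [gr_fst, List.mem_map] at hu hv
    obtain ⟨u', hu', rfl⟩ := hu
    obtain ⟨v', hv', rfl⟩ := hv
    rw [mem_VL] at hu' hv'
    dsimp only at huv
    rw [dc_cd hu', dc_cd hv'] at huv
    rw [hinj u' v' hu' hv' huv]
  · rintro ⟨pos, hinj, hnt⟩
    obtain ⟨s, hs, hsp⟩ := hS q (srcN q φ) (srcT q φ) (fun v => pos (cd q φ v))
      (two_le_srcN q φ) y1 (fun u v hu hv huv => by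
        rw [gr_fst] at hinj
        refine cd_inj (q := q) (φ := φ) hu hv (hinj _ ?_ _ ?_ huv)
        · exact List.mem_map_of_mem (mem_VL.2 hu)
        · exact List.mem_map_of_mem (mem_VL.2 hv)) (nt_of_noTwist hnt)
    obtain ⟨s', hs', hsc'⟩ := y2 s hs hsp
    exact e2 φ s' hs' hsc'

end Pool.Agent.Q223.QP4
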